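import Mathlib

/-!
# EF1 plus Pareto optimality with balancedness (Q2), hence with EF1 under a common valuation (Q1)

Two agents, eight goods.  Goods `0` and `1` are worth `3` to agent `0` and `4` to agent `1`; the
other six goods are worth `1` to both.  In a balanced allocation each agent holds four goods.  If
one agent holds both large goods, the other envies it by more than one good.  If each agent
holds one large good, giving both large goods to agent `1` and all six small goods to agent `0`
is a Pareto improvement.
-/

namespace Pool.Agent.Results.MP_e74e46_co.NoBalanced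

open Finset

variable {R : Type*} {n m : ℕ}

/-- The bundle of agent `i` in the allocation `A` (which sends each good to its owner). -/
def bundle (A : Fin m → Fin n) (i : Fin n) : Finset (Fin m) :=
  Finset.univ.filter fun g => A g = i

/-- The additive value of a set of goods. -/
def value [AddCommMonoid R] (w : Fin m → R) (S : Finset (Fin m)) : R := ∑ g ∈ S, w g

/-- EF1 with respect to the profile `w`. -/
def EF1 [AddCommMonoid R] [LE R] (w : Fin n → Fin m → R) (A : Fin m → Fin n) : Prop :=
  ∀ i j, bundle A j = ∅ ∨
    ∃ g ∈ bundle A j, value (w i) ((bundle A j).erase g) ≤ value (w i) (bundle A i)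

/-- Pareto optimality (among integral allocations) with respect to `u`. -/
def PO [AddCommMonoid R] [LE R] [LT R] (u : Fin n → Fin m → R) (A : Fin m → Fin n) : Prop :=
  ¬ ∃ A' : Fin m → Fin n, (∀ i, value (u i) (bundle A i) ≤ value (u i) (bundle A' i)) ∧
    ∃ i, value (u i) (bundle A i) < value (u i) (bundle A' i)

/-- Balancedness: every bundle has `⌊m/n⌋` or `⌈m/n⌉` goods. -/
def Balanced (A : Fin m → Fin n) : Prop :=
  ∀ i, (bundle A i).card = m / n ∨ (bundle A i).card = (m + n - 1) / n

/-- the subjective utilities, over the naturals -/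
def uN : Fin 2 → Fin 8 → ℕ := ![![3, 3, 1, 1, 1, 1, 1, 1], ![4, 4, 1, 1, 1, 1, 1, 1]]

/-- the dominating allocation -/
def best : Fin 8 → Fin 2 := ![1, 1, 0, 0, 0, 0, 0, 0]

lemma value_cast (w : Fin m → ℕ) (S : Finset (Fin m)) :
    value (fun g => (w g : ℝ)) S = ((value w S : ℕ) : ℝ) := by
  simp [value]

lemma EF1_cast (w : Fin n → Fin m → ℕ) (A : Fin m → Fin n) :
    EF1 (fun i g => (w i g : ℝ)) A ↔ EF1 w A := by
  simp only [EF1, value_cast, Nat.cast_le]

lemma PO_cast (w : Fin n → Fin m → ℕ) (A : Fin m → Fin n) :
    PO (fun i g => (w i g : ℝ)) A ↔ PO w A := by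
  simp only [PO, value_cast, Nat.cast_le, Nat.cast_lt]

instance (w : Fin n → Fin m → ℕ) (A : Fin m → Fin n) : Decidable (EF1 w A) := by
  unfold EF1; infer_instance

instance (A : Fin m → Fin n) : Decidable (Balanced A) := by
  unfold Balanced; infer_instance

lemma check : ∀ A : Fin 8 → Fin 2, (Balanced A ∨ EF1 (fun _ _ => 1 : Fin 2 → Fin 8 → ℕ) A) →
    EF1 uN A → ((∀ i, value (uN i) (bundle A i) ≤ value (uN i) (bundle best i)) ∧
      ∃ i, value (uN i) (bundle A i) < value (uN i) (bundle best i)) := by
  decide +kernel

/-- Some instance with strictly positive subjective values has no EF1 and PO allocation that is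
balanced, or (equivalently here) EF1 for the constant reference valuation `1`. -/
theorem result :
    ∃ u : Fin 2 → Fin 8 → ℝ, (∀ i g, 0 < u i g) ∧
      ¬ ∃ A : Fin 8 → Fin 2, EF1 u A ∧ PO u A ∧
        (Balanced A ∨ EF1 (fun _ _ => 1 : Fin 2 → Fin 8 → ℝ) A) := by
  refine ⟨fun i g => (uN i g : ℝ), ?_, ?_⟩
  · intro i g
    have : 0 < uN i g := by
      revert i g; decide
    exact Nat.cast_pos.2 this
  · rintro ⟨A, h1, h2, h3⟩
    have h3' : Balanced A ∨ EF1 (fun _ _ => 1 : Fin 2 → Fin 8 → ℕ) A := by
      rcases h3 with h3 | h3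
      · exact Or.inl h3
      · right
        rw [← EF1_cast]
        simpa using h3
    exact (PO_cast _ _).1 h2 ⟨best, check A h3' ((EF1_cast _ _).1 h1)⟩

end Pool.Agent.Results.MP_e74e46_co.NoBalanced
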